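import Pool.Agent.Helper15.KttMain

set_option autoImplicit false

namespace Pool.Agent.Results.MP_ad96ef_co.Full

/-- `F` is an `H`-intersecting family of graphs on the vertex set `Fin n`: the common edges of any
two members (also of a member with itself) contain a (not necessarily induced) copy of `H`. -/
def Intersecting {W : Type} (H : SimpleGraph W) {n : ℕ} (F : Finset (SimpleGraph (Fin n))) : Prop :=
  ∀ G₁ ∈ F, ∀ G₂ ∈ F, H.IsContained (G₁ ⊓ G₂)

/-- `g_H(n)`: the largest size of an `H`-intersecting family of graphs on `n` labelled vertices. -/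
noncomputable def g {W : Type} (H : SimpleGraph W) (n : ℕ) : ℕ :=
  sSup {m : ℕ | ∃ F : Finset (SimpleGraph (Fin n)), Intersecting H F ∧ F.card = m}

/-- the complete bipartite graph `K_{t,t}` -/
abbrev K (t : ℕ) : SimpleGraph (Fin t ⊕ Fin t) := completeBipartiteGraph (Fin t) (Fin t)

private theorem card_le {n : ℕ} (F : Finset (SimpleGraph (Fin n))) :
    (F.card : ℝ) ≤ 2 ^ (n.choose 2) := by
  classical
  have hcardE : Fintype.card (Helper15.EdgeIx n) = n.choose 2 := by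
    have := Sym2.card_subtype_not_diag (α := Fin n)
    rw [Fintype.card_fin] at this
    rw [← this]
  have h1 : (F.image (Helper15.enc n)).card = F.card :=
    Finset.card_image_of_injective _ (Helper15.enc_injective n)
  have h2 := Finset.card_le_univ (F.image (Helper15.enc n))
  rw [h1, Fintype.card_fun, Fintype.card_bool, hcardE] at h2
  exact_mod_cast h2

private theorem aux_mul {T : ℝ} (hT : T ≠ 0) (s y : ℝ) :
    T * (48 / T * (s * y) * s ^ 2) = 48 * s ^ 3 * y := by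
  field_simp

private theorem aux_div {T : ℝ} (hT : T ≠ 0) : 8 / (T / 6) = 48 / T := by
  field_simp
  norm_num

private theorem cube {t n : ℕ} (ht : 2 ≤ t) {F : Finset (SimpleGraph (Fin n))}
    (hF : Intersecting (K t) F) :
    (t : ℝ) ^ 2 * (F.card : ℝ) ^ 3 ≤ 2304 * ((2 : ℝ) ^ (n.choose 2)) ^ 3 := by
  obtain ⟨k, rfl⟩ := Nat.exists_eq_add_of_le' ht
  have ht0 : (2 : ℝ) ≤ ((k + 2 : ℕ) : ℝ) := by exact_mod_cast ht
  set T : ℝ := ((k + 2 : ℕ) : ℝ) with hT
  have hT0 : 0 < T := by linarith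
  have hfac : T ^ (k + 2) ≤ ((k + 2).factorial : ℝ) * Real.exp T := by
    have h := Real.pow_div_factorial_le_exp T hT0.le (k + 2)
    rw [div_le_iff₀ (by positivity)] at h
    linarith
  have hexp : Real.exp T ^ 2 ≤ 9 ^ (k + 2) := by
    rw [hT, ← Real.exp_one_rpow, Real.rpow_natCast, ← pow_mul, mul_comm, pow_mul]
    refine pow_le_pow_left₀ (by positivity) ?_ _
    have := Real.exp_one_lt_three
    have h0 := Real.exp_pos 1
    nlinarith
  have hk : (T / 6) ^ (2 * k + 2) ≤ (9 / 4 / T ^ 2) * ((k + 2).factorial : ℝ) ^ 2 := by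
    have h1 : (T ^ (k + 2)) ^ 2 ≤ ((k + 2).factorial : ℝ) ^ 2 * 9 ^ (k + 2) := by
      calc (T ^ (k + 2)) ^ 2 ≤ (((k + 2).factorial : ℝ) * Real.exp T) ^ 2 :=
            pow_le_pow_left₀ (by positivity) hfac 2
        _ = ((k + 2).factorial : ℝ) ^ 2 * Real.exp T ^ 2 := by ring
        _ ≤ _ := mul_le_mul_of_nonneg_left hexp (by positivity)
    have h2 : (T / 6) ^ (2 * k + 2) = 36 / T ^ 2 * ((T ^ (k + 2)) ^ 2 / 36 ^ (k + 2)) := by
      have e1 : (36 : ℝ) ^ (k + 2) = (6 ^ (k + 2)) ^ 2 := by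
        rw [← pow_mul, mul_comm, pow_mul]
        norm_num
      have e2 : ((T / 6) ^ (k + 2)) ^ 2 = (T / 6) ^ (2 * k + 2) * (T / 6) ^ 2 := by ring
      rw [e1, ← div_pow (T ^ (k + 2)), ← div_pow T 6 (k + 2), e2]
      have e3 : 36 / T ^ 2 * (T / 6) ^ 2 = 1 := by
        field_simp
        norm_num
      calc (T / 6) ^ (2 * k + 2) = (36 / T ^ 2 * (T / 6) ^ 2) * (T / 6) ^ (2 * k + 2) := by
            rw [e3, one_mul]
        _ = _ := by ring
    have h3 : (T ^ (k + 2)) ^ 2 / 36 ^ (k + 2) ≤ ((k + 2).factorial : ℝ) ^ 2 * (1 / 16) := by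
      rw [div_le_iff₀ (by positivity)]
      refine h1.trans ?_
      have h4 : (9 : ℝ) ^ (k + 2) ≤ 1 / 16 * 36 ^ (k + 2) := by
        have h5 : (36 : ℝ) ^ (k + 2) = 9 ^ (k + 2) * (16 * 4 ^ k) := by
          rw [show (36 : ℝ) = 9 * 4 by norm_num, mul_pow, pow_add 4 k 2]
          ring
        rw [h5]
        have h6 : (1 : ℝ) ≤ 4 ^ k := one_le_pow₀ (by norm_num)
        have h7 : (0 : ℝ) < 9 ^ (k + 2) := by positivity
        nlinarith
      calc ((k + 2).factorial : ℝ) ^ 2 * 9 ^ (k + 2)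
          ≤ ((k + 2).factorial : ℝ) ^ 2 * (1 / 16 * 36 ^ (k + 2)) :=
            mul_le_mul_of_nonneg_left h4 (by positivity)
        _ = _ := by ring
    rw [h2]
    calc 36 / T ^ 2 * ((T ^ (k + 2)) ^ 2 / 36 ^ (k + 2))
        ≤ 36 / T ^ 2 * (((k + 2).factorial : ℝ) ^ 2 * (1 / 16)) :=
          mul_le_mul_of_nonneg_left h3 (by positivity)
      _ = _ := by ring
  have hmain := Helper15.main_ineq n k F hF (9 / 4 / T ^ 2) (T / 6) (by positivity)
    (by positivity) hk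
  set a : ℝ := (F.card : ℝ) with ha
  set M : ℝ := (2 : ℝ) ^ (n.choose 2) with hM
  have ha0 : 0 ≤ a := Nat.cast_nonneg _
  have hM0 : 0 < M := by positivity
  rcases ha0.eq_or_lt with h | hapos
  · rw [← h]
    simp only [ne_eq, OfNat.ofNat_ne_zero, not_false_eq_true, zero_pow, mul_zero]
    positivity
  have hd : 9 / 4 / T ^ 2 ≤ 8 / (T / 6) := by
    rw [div_div, div_le_div_iff₀ (by positivity) (by positivity)]
    nlinarith
  have h1 : a * a / M ≤ 48 / T * √(M * a) := by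
    have h2 : 9 / 4 / T ^ 2 * a ≤ 8 / (T / 6) * a := mul_le_mul_of_nonneg_right hd ha0
    have h3 : 8 / (T / 6) = 48 / T := aux_div hT0.ne'
    rw [h3] at h2 hmain
    linarith
  rw [Real.sqrt_mul hM0.le] at h1
  set y := √a with hy
  set s := √M with hs
  have hy2 : a = y ^ 2 := (Real.sq_sqrt ha0).symm
  have hs2 : M = s ^ 2 := (Real.sq_sqrt hM0.le).symm
  have hy0 : 0 < y := Real.sqrt_pos.2 hapos
  have hs0 : 0 < s := Real.sqrt_pos.2 hM0
  rw [hy2, hs2, div_le_iff₀ (by positivity)] at h1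
  have h4 : T * y ^ 3 ≤ 48 * s ^ 3 := by
    have h5 : T * y ^ 3 * y ≤ 48 * s ^ 3 * y := by
      have h6 := mul_le_mul_of_nonneg_left h1 hT0.le
      have h7 : T * (48 / T * (s * y) * s ^ 2) = 48 * s ^ 3 * y := aux_mul hT0.ne' s y
      calc T * y ^ 3 * y = T * (y ^ 2 * y ^ 2) := by ring
        _ ≤ _ := h6
        _ = _ := h7
    exact le_of_mul_le_mul_right h5 hy0
  rw [hy2, hs2]
  calc T ^ 2 * (y ^ 2) ^ 3 = (T * y ^ 3) ^ 2 := by ring
    _ ≤ (48 * s ^ 3) ^ 2 :=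
        pow_le_pow_left₀ (mul_nonneg hT0.le (pow_nonneg hy0.le 3)) h4 2
    _ = 2304 * (s ^ 2) ^ 3 := by ring

private theorem bound {t n : ℕ} (ht : 1 ≤ t) {F : Finset (SimpleGraph (Fin n))}
    (hF : Intersecting (K t) F) :
    (F.card : ℝ) ≤ 14 * (t : ℝ) ^ (-(2 / 3) : ℝ) * 2 ^ (n.choose 2) := by
  have hM0 : (0 : ℝ) < 2 ^ (n.choose 2) := by positivity
  rcases ht.eq_or_lt with h | h
  · rw [← h, Nat.cast_one, Real.one_rpow]
    have := card_le F
    linarith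
  · have h1 := cube h hF
    have ht0 : (0 : ℝ) < t := by exact_mod_cast (by omega : 0 < t)
    have h2 : ((t : ℝ) ^ (-(2 / 3) : ℝ)) ^ 3 * (t : ℝ) ^ 2 = 1 := by
      rw [← Real.rpow_natCast, ← Real.rpow_mul ht0.le, ← Real.rpow_natCast (t : ℝ) 2,
        ← Real.rpow_add ht0]
      norm_num
    have hu : 0 < (t : ℝ) ^ (-(2 / 3) : ℝ) := Real.rpow_pos_of_pos ht0 _
    set u : ℝ := (t : ℝ) ^ (-(2 / 3) : ℝ) with hud
    set M : ℝ := (2 : ℝ) ^ (n.choose 2) with hM
    by_contra hcon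
    rw [not_le] at hcon
    have h3 : (14 * u * M) ^ 3 < (F.card : ℝ) ^ 3 := pow_lt_pow_left₀ hcon (by positivity) (by norm_num)
    have h4 : (t : ℝ) ^ 2 * (14 * u * M) ^ 3 < (t : ℝ) ^ 2 * (F.card : ℝ) ^ 3 :=
      mul_lt_mul_of_pos_left h3 (by positivity)
    have h5 : (t : ℝ) ^ 2 * (14 * u * M) ^ 3 = 2744 * (u ^ 3 * (t : ℝ) ^ 2) * M ^ 3 := by ring
    rw [h5, h2] at h4
    have h6 : 0 < M ^ 3 := by positivity
    linarith

private theorem g_le {W : Type} (H : SimpleGraph W) (n : ℕ) (B : ℝ)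
    (h : ∀ F : Finset (SimpleGraph (Fin n)), Intersecting H F → (F.card : ℝ) ≤ B) :
    (g H n : ℝ) ≤ B := by
  have hne : {m : ℕ | ∃ F : Finset (SimpleGraph (Fin n)), Intersecting H F ∧
      F.card = m}.Nonempty :=
    ⟨0, ∅, fun G₁ hG => absurd hG (Finset.notMem_empty _), rfl⟩
  have hbd : BddAbove {m : ℕ | ∃ F : Finset (SimpleGraph (Fin n)), Intersecting H F ∧
      F.card = m} := by
    refine ⟨2 ^ (n.choose 2), ?_⟩
    rintro m ⟨F, _, rfl⟩
    exact_mod_cast card_le F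
  obtain ⟨F, hF, hm⟩ := Nat.sSup_mem hne hbd
  have h1 : g H n = F.card := hm.symm
  rw [h1]
  exact h F hF

/-- **Families of graphs with complete bipartite intersections.**  `K_{t,t}`-intersecting families of
graphs on `n` labelled vertices have size at most `14 t^{-2/3} 2^{n choose 2}`, for all `t ≥ 1` and
all `n`; in particular there are `t` and `c > 0` with `g_{K_{t,t}}(n) ≤ (1 - c) 2^{(n choose 2) - 1}`
for all `n` (the exponent is a real number here). -/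
theorem result :
    (∃ t : ℕ, ∃ c : ℝ, 0 < c ∧ ∀ n : ℕ,
      (g (K t) n : ℝ) ≤ (1 - c) * (2 : ℝ) ^ ((n.choose 2 : ℝ) - 1)) ∧
    ∀ t : ℕ, 1 ≤ t → ∀ n : ℕ,
      (g (K t) n : ℝ) ≤ 14 * (t : ℝ) ^ (-(2 / 3) : ℝ) * 2 ^ (n.choose 2) := by
  have key : ∀ t : ℕ, 1 ≤ t → ∀ n : ℕ,
      (g (K t) n : ℝ) ≤ 14 * (t : ℝ) ^ (-(2 / 3) : ℝ) * 2 ^ (n.choose 2) :=
    fun t ht n => g_le _ _ _ fun F hF => bound ht hF
  refine ⟨⟨27000, 1 / 2, by norm_num, fun n => (key 27000 (by norm_num) n).trans ?_⟩, key⟩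
  have h1 : ((27000 : ℕ) : ℝ) ^ (-(2 / 3) : ℝ) = 1 / 900 := by
    rw [show ((27000 : ℕ) : ℝ) = (30 : ℝ) ^ (3 : ℝ) by norm_num, ← Real.rpow_mul (by norm_num)]
    norm_num
  have h2 : (2 : ℝ) ^ ((n.choose 2 : ℝ) - 1) = 2 ^ (n.choose 2) / 2 := by
    rw [Real.rpow_sub_one (by norm_num), Real.rpow_natCast]
  rw [h1, h2]
  have hM0 : (0 : ℝ) < 2 ^ (n.choose 2) := by positivity
  linarith

end Pool.Agent.Results.MP_ad96ef_co.Full
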